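import Mathlib

/-!
# Subspace lattices of skew vector spaces inside subspace lattices of vector spaces

Let `V` be a vector space over a division ring `D` and let `F` be the centre of `D`, a field. Every
`D`-subspace of `V` is an `F`-subspace, and finite or infinite intersections and sums of
`D`-subspaces are the same over `D` and over `F`. Hence the lattice of the `D`-subspaces of `V` is a
complete `0`-`1`-sublattice of the lattice of the `F`-subspaces of `V`. So every lattice that embeds
into the subspace lattice of a skew vector space embeds into the subspace lattice of a vector space
over a field.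
-/

set_option autoImplicit false

namespace Pool.Agent.Results.MP_332034_al.SkewToFieldH59

universe u v w

/-- `L` embeds into the lattice of all subspaces of some left vector space over some division
ring. -/
def EmbedsSkew (L : Type u) [Lattice L] : Prop :=
  ∃ (D : Type v) (_ : DivisionRing D) (V : Type w) (_ : AddCommGroup V) (_ : Module D V)
    (f : L → Submodule D V), Function.Injective f ∧
      (∀ a b : L, f (a ⊓ b) = f a ⊓ f b) ∧ ∀ a b : L, f (a ⊔ b) = f a ⊔ f b

/-- `L` embeds into the lattice of all subspaces of some vector space over some field. -/
def EmbedsField (L : Type u) [Lattice L] : Prop :=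
  ∃ (F : Type v) (_ : Field F) (W : Type w) (_ : AddCommGroup W) (_ : Module F W)
    (g : L → Submodule F W), Function.Injective g ∧
      (∀ a b : L, g (a ⊓ b) = g a ⊓ g b) ∧ ∀ a b : L, g (a ⊔ b) = g a ⊔ g b

/-- For every vector space `V` over a division ring `D` there is a field `F` acting on `V` such that
the lattice of the `D`-subspaces is a complete sublattice of the lattice of the `F`-subspaces (with
the same zero and the same unit). Hence a lattice embeds into the subspace lattice of a skew vector
space if and only if it embeds into the subspace lattice of a vector space over a field. -/
theorem result :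
    (∀ (D : Type v) [DivisionRing D] (V : Type w) [AddCommGroup V] [Module D V],
      ∃ (F : Type v) (_ : Field F) (_ : Module F V)
        (φ : CompleteLatticeHom (Submodule D V) (Submodule F V)),
        (∀ U : Submodule D V, (φ U : Set V) = U) ∧ Function.Injective φ) ∧
    ∀ (L : Type u) [Lattice L], EmbedsSkew.{u, v, w} L ↔ EmbedsField.{u, v, w} L := by
  have key : ∀ (D : Type v) [DivisionRing D] (V : Type w) [AddCommGroup V] [Module D V],
      ∃ (F : Type v) (_ : Field F) (_ : Module F V)
        (φ : CompleteLatticeHom (Submodule D V) (Submodule F V)),
        (∀ U : Submodule D V, (φ U : Set V) = U) ∧ Function.Injective φ := by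
    intro D _ V _ _
    let m : Module (Subring.center D) V := inferInstance
    refine ⟨Subring.center D, inferInstance, m, ?_⟩
    have hs : ∀ U : Submodule D V,
        ((Submodule.restrictScalars (Subring.center D) U : Submodule (Subring.center D) V) : Set V)
          = U := fun U => Submodule.coe_restrictScalars _ _
    let φ : CompleteLatticeHom (Submodule D V) (Submodule (Subring.center D) V) :=
      { toFun := fun U => Submodule.restrictScalars (Subring.center D) U
        map_sInf' := by
          intro s
          apply SetLike.coe_injective
          rw [hs, Submodule.coe_sInf, Submodule.coe_sInf]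
          simp
        map_sSup' := by
          intro s
          apply le_antisymm
          · intro x hx
            have hx' : x ∈ sSup s := hx
            rw [sSup_eq_iSup'] at hx'
            refine Submodule.iSup_induction (fun U : s => (U : Submodule D V))
              (motive := fun x => x ∈ sSup ((fun U : Submodule D V =>
                Submodule.restrictScalars (Subring.center D) U) '' s)) hx' ?_ ?_ ?_
            · rintro ⟨U, hU⟩ y hy
              exact (le_sSup (Set.mem_image_of_mem _ hU) :
                Submodule.restrictScalars (Subring.center D) U ≤ _) hy
            · exact Submodule.zero_mem _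
            · intro y z hy hz
              exact Submodule.add_mem _ hy hz
          · apply sSup_le
            rintro _ ⟨U, hU, rfl⟩ x hx
            exact (le_sSup hU : U ≤ sSup s) hx }
    exact ⟨φ, hs, fun A B h => Submodule.restrictScalars_injective (Subring.center D) D V h⟩
  refine ⟨key, fun L _ => ⟨?_, ?_⟩⟩
  · rintro ⟨D, _, V, _, _, f, hf, hinf, hsup⟩
    obtain ⟨F, _, _, φ, -, hφ⟩ := key D V
    refine ⟨F, inferInstance, V, inferInstance, inferInstance, fun a => φ (f a),
      fun a b h => hf (hφ h), ?_, ?_⟩
    · intro a b
      change φ (f (a ⊓ b)) = φ (f a) ⊓ φ (f b)
      rw [hinf, map_inf]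
    · intro a b
      change φ (f (a ⊔ b)) = φ (f a) ⊔ φ (f b)
      rw [hsup, map_sup]
  · rintro ⟨F, _, W, _, _, g, hg⟩
    exact ⟨F, inferInstance, W, inferInstance, inferInstance, g, hg⟩

end Pool.Agent.Results.MP_332034_al.SkewToFieldH59
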